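import Mathlib

/-! Random binary codes without clustering: definitions. -/

set_option autoImplicit false

namespace Pool.Agent.Q197.NC

/-- binary words of length `n` -/
abbrev Word (n : ℕ) : Type := Fin n → Bool

/-- the number of words at Hamming distance at most `w` from a given word -/
def vol (n w : ℕ) : ℕ := ∑ i ∈ Finset.range (w + 1), n.choose i

/-- A random binary code of length `n` (a code chosen from a finite list with probabilities). -/
structure RandomCode (n : ℕ) where
  /-- the index set -/
  Ω : Type
  /-- it is finite -/
  fin : Fintype Ω
  /-- the probabilities -/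
  p : Ω → ℝ
  nonneg : ∀ ω, 0 ≤ p ω
  sum_one : ∑ ω, p ω = 1
  /-- the codes -/
  code : Ω → Finset (Word n)

attribute [instance] RandomCode.fin

variable {n : ℕ}

/-- the expected number of words -/
noncomputable def RandomCode.size (C : RandomCode n) : ℝ := ∑ ω, C.p ω * (C.code ω).card

/-- the expected number of ordered pairs of distinct words at distance at most `w` -/
noncomputable def RandomCode.pairs (C : RandomCode n) (w : ℕ) : ℝ :=
  ∑ ω, C.p ω *
    (((C.code ω ×ˢ C.code ω).filter (fun z => z.1 ≠ z.2 ∧ hammingDist z.1 z.2 ≤ w)).card : ℝ)

/-- distinct words of the codes have distance at least `d` -/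
def RandomCode.MinDist (C : RandomCode n) (d : ℕ) : Prop :=
  ∀ ω, ∀ x ∈ C.code ω, ∀ y ∈ C.code ω, x ≠ y → d ≤ hammingDist x y

/-- For no `w` the average number of other words within distance `w` of a word exceeds the average
number of words in a ball of radius `w` by more than `B`. -/
def RandomCode.Unclustered (C : RandomCode n) (B : ℝ) : Prop :=
  ∀ w ≤ n, C.pairs w ≤ C.size * (C.size * vol n w / 2 ^ n + B)

/-- The supremum of the expected sizes of the random codes of length `n` with minimum distance at
least `d` and excess at most `B`. -/
noncomputable def best (n d : ℕ) (B : ℝ) : ℝ :=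
  sSup {M | ∃ C : RandomCode n, C.MinDist d ∧ C.Unclustered B ∧ C.size = M}

end Pool.Agent.Q197.NC
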