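import Pool.Agent.Q197.NC.Upper

/-! Random binary codes without clustering: hard-core thinning of a Bernoulli set. -/

set_option autoImplicit false

open Finset

namespace Pool.Agent.Q197.NC

variable {n : ℕ}

/-- the number of words at a given distance -/
lemma card_sphere (x : Word n) (i : ℕ) :
    ((Finset.univ : Finset (Word n)).filter (fun y => hammingDist x y = i)).card = n.choose i := by
  classical
  have h : (Finset.powersetCard i (Finset.univ : Finset (Fin n))).card = n.choose i := by
    rw [Finset.card_powersetCard, Finset.card_univ, Fintype.card_fin]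
  rw [← h]
  refine Finset.card_nbij' (fun y => Finset.univ.filter (fun j => x j ≠ y j))
    (fun S => fun j => if j ∈ S then !(x j) else x j) ?_ ?_ ?_ ?_
  · intro y hy
    simp only [Finset.coe_filter, Finset.mem_univ, true_and, Set.mem_ofPred_eq] at hy
    rw [Finset.mem_coe, Finset.mem_powersetCard]
    exact ⟨Finset.subset_univ _, hy⟩
  · intro S hS
    rw [Finset.mem_coe, Finset.mem_powersetCard] at hS
    simp only [Finset.coe_filter, Finset.mem_univ, true_and, Set.mem_ofPred_eq]
    rw [← hS.2]
    unfold hammingDist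
    congr 1
    ext j
    simp only [Finset.mem_filter, Finset.mem_univ, true_and]
    by_cases hj : j ∈ S
    · simp [hj]
    · simp [hj]
  · intro y _
    funext j
    simp only [Finset.mem_filter, Finset.mem_univ, true_and]
    by_cases hj : x j = y j
    · simp [hj]
    · simp only [ne_eq, hj, not_false_eq_true, if_true]
      cases hx : x j <;> cases hy : y j <;> simp_all
  · intro S _
    ext j
    simp only [Finset.mem_filter, Finset.mem_univ, true_and]
    by_cases hj : j ∈ S
    · simp [hj]
    · simp [hj]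

lemma card_ball (x : Word n) (w : ℕ) :
    ((Finset.univ : Finset (Word n)).filter (fun y => hammingDist x y ≤ w)).card = vol n w := by
  classical
  unfold vol
  rw [← Finset.sum_congr rfl (fun i _ => card_sphere x i)]
  rw [← Finset.card_biUnion]
  · congr 1
    ext y
    simp
  · intro i _ j _ hij
    rw [Function.onFun, Finset.disjoint_left]
    intro y hy hy2
    simp only [Finset.mem_filter, Finset.mem_univ, true_and] at hy hy2
    exact hij (hy.symm.trans hy2)

section bernoulli
variable {ι : Type} [Fintype ι] [DecidableEq ι]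

/-- the weight of a subset, given by its indicator, under independent choices -/
noncomputable def wt (q : ℝ) (ω : ι → Bool) : ℝ := ∏ a, if ω a then q else 1 - q

omit [DecidableEq ι] in
lemma wt_nonneg {q : ℝ} (h0 : 0 ≤ q) (h1 : q ≤ 1) (ω : ι → Bool) : 0 ≤ wt q ω := by
  unfold wt
  apply Finset.prod_nonneg
  intro a _
  split_ifs <;> linarith

/-- the probability that all elements of `A` are chosen and none of `T` -/
lemma sum_wt (q : ℝ) {A T : Finset ι} (hAT : Disjoint A T) :
    ∑ ω : ι → Bool, (if (∀ a ∈ A, ω a = true) ∧ (∀ a ∈ T, ω a = false) then wt q ω else 0) =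
      q ^ A.card * (1 - q) ^ T.card := by
  have h1 : ∀ ω : ι → Bool,
      (if (∀ a ∈ A, ω a = true) ∧ (∀ a ∈ T, ω a = false) then wt q ω else 0) =
      ∏ a, (if (a ∈ A → ω a = true) ∧ (a ∈ T → ω a = false) then (if ω a then q else 1 - q)
        else 0) := by
    intro ω
    split_ifs with h
    · unfold wt
      apply Finset.prod_congr rfl
      intro a _
      rw [if_pos (show (a ∈ A → ω a = true) ∧ (a ∈ T → ω a = false) from ⟨h.1 a, h.2 a⟩)]
    · symm
      rw [not_and_or] at h
      rcases h with h | h
      · push Not at h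
        obtain ⟨a, ha, ha2⟩ := h
        apply Finset.prod_eq_zero (Finset.mem_univ a)
        rw [if_neg (fun h => ha2 (h.1 ha))]
      · push Not at h
        obtain ⟨a, ha, ha2⟩ := h
        apply Finset.prod_eq_zero (Finset.mem_univ a)
        rw [if_neg (fun h => ha2 (h.2 ha))]
  rw [Finset.sum_congr rfl (fun ω _ => h1 ω)]
  have h := Finset.prod_univ_sum (fun _ : ι => (Finset.univ : Finset Bool))
    (fun a (c : Bool) => if (a ∈ A → c = true) ∧ (a ∈ T → c = false) then
      (if c then q else 1 - q) else 0)
  rw [Fintype.piFinset_univ] at h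
  rw [← h]
  have h2 : ∀ a : ι, ∑ c : Bool, (if (a ∈ A → c = true) ∧ (a ∈ T → c = false) then
      (if c then q else 1 - q) else 0) =
      (if a ∈ A then q else 1) * (if a ∈ T then 1 - q else 1) := by
    intro a
    rw [Fintype.sum_bool]
    by_cases hA : a ∈ A
    · have hT : a ∉ T := Finset.disjoint_left.1 hAT hA
      simp [hA, hT]
    · by_cases hT : a ∈ T
      · simp [hA, hT]
      · simp [hA, hT]
  rw [Finset.prod_congr rfl (fun a _ => h2 a), Finset.prod_mul_distrib]
  congr 1
  · rw [Finset.prod_ite, Finset.prod_const, Finset.prod_const_one, mul_one]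
    congr 2
    ext a; simp
  · rw [Finset.prod_ite, Finset.prod_const, Finset.prod_const_one, mul_one]
    congr 2
    ext a; simp

end bernoulli

/-- the punctured ball of radius `d - 1` -/
def nb (d : ℕ) (x : Word n) : Finset (Word n) :=
  Finset.univ.filter (fun y => y ≠ x ∧ hammingDist x y < d)

lemma mem_nb {d : ℕ} {x y : Word n} : y ∈ nb d x ↔ y ≠ x ∧ hammingDist x y < d := by
  simp [nb]

lemma card_nb {d : ℕ} (hd : 1 ≤ d) (x : Word n) : (nb d x).card = vol n (d - 1) - 1 := by
  classical
  have h1 : nb d x = ((Finset.univ : Finset (Word n)).filter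
      (fun y => hammingDist x y ≤ d - 1)).erase x := by
    ext y
    simp only [mem_nb, Finset.mem_erase, Finset.mem_filter, Finset.mem_univ, true_and]
    constructor
    · rintro ⟨h1, h2⟩
      exact ⟨h1, by omega⟩
    · rintro ⟨h1, h2⟩
      exact ⟨h1, by omega⟩
  rw [h1, Finset.card_erase_of_mem, card_ball]
  simp

/-- the surviving words -/
noncomputable def surv (d : ℕ) (ω : Word n → Bool) : Finset (Word n) :=
  Finset.univ.filter (fun x => ω x = true ∧ ∀ y ∈ nb d x, ω y = false)

lemma mem_surv {d : ℕ} {ω : Word n → Bool} {x : Word n} :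
    x ∈ surv d ω ↔ ω x = true ∧ ∀ y ∈ nb d x, ω y = false := by
  simp [surv]

/-- the thinned random set -/
noncomputable def thin (n d : ℕ) (q : ℝ) (h0 : 0 ≤ q) (h1 : q ≤ 1) : RandomCode n where
  Ω := Word n → Bool
  fin := inferInstance
  p := wt q
  nonneg := wt_nonneg h0 h1
  sum_one := by
    have h := sum_wt (ι := Word n) q (A := ∅) (T := ∅) (Finset.disjoint_empty_left _)
    simpa using h
  code := surv d

lemma thin_size (n d : ℕ) (hd : 1 ≤ d) (q : ℝ) (h0 : 0 ≤ q) (h1 : q ≤ 1) :
    (thin n d q h0 h1).size = 2 ^ n * (q * (1 - q) ^ (vol n (d - 1) - 1)) := by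
  classical
  have e1 : (thin n d q h0 h1).size = ∑ ω : Word n → Bool, wt q ω * ((surv d ω).card : ℝ) := rfl
  rw [e1]
  have h2 : ∀ ω : Word n → Bool, wt q ω * ((surv d ω).card : ℝ) =
      ∑ x : Word n, if (∀ a ∈ ({x} : Finset (Word n)), ω a = true) ∧ (∀ a ∈ nb d x, ω a = false)
        then wt q ω else 0 := by
    intro ω
    rw [surv, Finset.card_filter]
    push_cast
    rw [Finset.mul_sum]
    apply Finset.sum_congr rfl
    intro x _
    simp only [Finset.mem_singleton, forall_eq]
    split_ifs <;> simp
  rw [Finset.sum_congr rfl (fun ω _ => h2 ω), Finset.sum_comm]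
  have h3 : ∀ x : Word n, ∑ ω : Word n → Bool, (if (∀ a ∈ ({x} : Finset (Word n)), ω a = true) ∧
      (∀ a ∈ nb d x, ω a = false) then wt q ω else 0) = q * (1 - q) ^ (vol n (d - 1) - 1) := by
    intro x
    rw [sum_wt q (by
      rw [Finset.disjoint_singleton_left]
      intro h
      exact (mem_nb.1 h).1 rfl), Finset.card_singleton, pow_one, card_nb hd]
  rw [Finset.sum_congr rfl (fun x _ => h3 x), Finset.sum_const, nsmul_eq_mul, Finset.card_univ]
  simp

lemma thin_minDist (n d : ℕ) (q : ℝ) (h0 : 0 ≤ q) (h1 : q ≤ 1) :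
    (thin n d q h0 h1).MinDist d := by
  intro ω x hx y hy hxy
  change x ∈ surv d ω at hx
  change y ∈ surv d ω at hy
  rw [mem_surv] at hx hy
  by_contra hlt
  rw [not_le] at hlt
  have := hx.2 y (mem_nb.2 ⟨hxy.symm, hlt⟩)
  rw [hy.1] at this
  exact absurd this (by simp)

/-- the number of common neighbours, summed over the second point -/
lemma sum_common (d : ℕ) (hd : 1 ≤ d) (x : Word n) :
    ∑ y : Word n, (nb d x ∩ nb d y).card = (vol n (d - 1) - 1) * (vol n (d - 1) - 1) := by
  classical
  have h1 : ∀ y : Word n, (nb d x ∩ nb d y).card = ∑ z ∈ nb d x, if y ∈ nb d z then 1 else 0 := by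
    intro y
    rw [← Finset.filter_mem_eq_inter, Finset.card_filter]
    apply Finset.sum_congr rfl
    intro z _
    have : z ∈ nb d y ↔ y ∈ nb d z := by
      rw [mem_nb, mem_nb, hammingDist_comm, ne_comm]
    simp [this]
  rw [Finset.sum_congr rfl (fun y _ => h1 y), Finset.sum_comm]
  have h2 : ∀ z : Word n, ∑ y : Word n, (if y ∈ nb d z then 1 else 0) = vol n (d - 1) - 1 := by
    intro z
    rw [Finset.sum_boole, ← card_nb hd z]
    simp
  rw [Finset.sum_congr rfl (fun z _ => h2 z), Finset.sum_const, card_nb hd, smul_eq_mul]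

/-- the probability that two given words survive -/
lemma two_survive (d : ℕ) (hd : 1 ≤ d) (q : ℝ) (h0 : 0 ≤ q) (h1 : q < 1) {x y : Word n}
    (hxy : x ≠ y) (hV : q * ((vol n (d - 1) : ℝ) - 1) ≤ 1 / 2) :
    ∑ ω : Word n → Bool, (if x ∈ surv d ω ∧ y ∈ surv d ω then wt q ω else 0) ≤
      (q * (1 - q) ^ (vol n (d - 1) - 1)) ^ 2 * (1 + 2 * q * (nb d x ∩ nb d y).card) := by
  classical
  have hV1 : 1 ≤ vol n (d - 1) := by
    unfold vol
    calc 1 = n.choose 0 := by simp
      _ ≤ _ := Finset.single_le_sum (f := fun i => n.choose i) (fun _ _ => Nat.zero_le _)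
        (by simp)
  set V := vol n (d - 1) with hVdef
  have hq1 : 0 < 1 - q := by linarith
  by_cases hdist : hammingDist x y < d
  · have : ∀ ω : Word n → Bool, (if x ∈ surv d ω ∧ y ∈ surv d ω then wt q ω else 0) = 0 := by
      intro ω
      rw [if_neg]
      rintro ⟨h2, h3⟩
      rw [mem_surv] at h2 h3
      have := h2.2 y (mem_nb.2 ⟨hxy.symm, hdist⟩)
      rw [h3.1] at this
      exact absurd this (by simp)
    rw [Finset.sum_congr rfl (fun ω _ => this ω), Finset.sum_const_zero]
    positivity
  · have hset : ∀ ω : Word n → Bool, (x ∈ surv d ω ∧ y ∈ surv d ω) ↔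
        ((∀ a ∈ ({x, y} : Finset (Word n)), ω a = true) ∧
          (∀ a ∈ nb d x ∪ nb d y, ω a = false)) := by
      intro ω
      rw [mem_surv, mem_surv]
      constructor
      · rintro ⟨⟨a1, a2⟩, b1, b2⟩
        refine ⟨?_, ?_⟩
        · intro a ha
          rw [Finset.mem_insert, Finset.mem_singleton] at ha
          rcases ha with rfl | rfl
          · exact a1
          · exact b1
        · intro a ha
          rw [Finset.mem_union] at ha
          rcases ha with ha | ha
          · exact a2 a ha
          · exact b2 a ha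
      · rintro ⟨c1, c2⟩
        exact ⟨⟨c1 x (by simp), fun a ha => c2 a (Finset.mem_union_left _ ha)⟩,
          c1 y (by simp), fun a ha => c2 a (Finset.mem_union_right _ ha)⟩
    have hdisj : Disjoint ({x, y} : Finset (Word n)) (nb d x ∪ nb d y) := by
      rw [Finset.disjoint_left]
      intro a ha hb
      rw [Finset.mem_insert, Finset.mem_singleton] at ha
      rw [Finset.mem_union, mem_nb, mem_nb] at hb
      rcases ha with rfl | rfl
      · rcases hb with hb | hb
        · exact hb.1 rfl
        · rw [hammingDist_comm] at hb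
          exact hdist hb.2
      · rcases hb with hb | hb
        · exact hdist hb.2
        · exact hb.1 rfl
    have hsum := sum_wt q hdisj
    simp_rw [hset]
    rw [hsum, Finset.card_pair hxy]
    set o := (nb d x ∩ nb d y).card with ho
    have hcard : (nb d x ∪ nb d y).card + o = 2 * (V - 1) := by
      rw [ho, Finset.card_union_add_card_inter, card_nb hd, card_nb hd]
      ring
    have hoV : o ≤ V - 1 := by
      rw [← card_nb hd x]
      exact Finset.card_le_card Finset.inter_subset_left
    -- Bernoulli
    have hqo : q * o ≤ 1 / 2 := by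
      refine le_trans ?_ hV
      gcongr
      have : (o : ℝ) ≤ ((V - 1 : ℕ) : ℝ) := by exact_mod_cast hoV
      rw [Nat.cast_sub hV1, Nat.cast_one] at this
      exact this
    have hbern : 1 - q * o ≤ (1 - q) ^ o := by
      have := one_add_mul_le_pow (show (-2 : ℝ) ≤ -q by linarith) o
      calc 1 - q * o = 1 + o * -q := by ring
        _ ≤ (1 + -q) ^ o := this
        _ = _ := by rw [← sub_eq_add_neg]
    have hkey : 1 ≤ (1 - q) ^ o * (1 + 2 * q * o) := by
      have h5 : 0 ≤ q * o := by positivity
      calc (1 : ℝ) ≤ (1 - q * o) * (1 + 2 * q * o) := by nlinarith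
        _ ≤ _ := by gcongr
    calc q ^ 2 * (1 - q) ^ (nb d x ∪ nb d y).card
        ≤ q ^ 2 * (1 - q) ^ (nb d x ∪ nb d y).card * ((1 - q) ^ o * (1 + 2 * q * o)) :=
          le_mul_of_one_le_right (by positivity) hkey
      _ = q ^ 2 * (1 - q) ^ ((nb d x ∪ nb d y).card + o) * (1 + 2 * q * o) := by
          rw [pow_add]; ring
      _ = _ := by
          rw [hcard, mul_comm 2 (V - 1), pow_mul]
          ring

theorem lower {d : ℕ} (hd : 1 ≤ d) (n : ℕ) : ∃ C : RandomCode n, C.MinDist d ∧
    C.Unclustered (1 / 2) ∧ (2 : ℝ) ^ n ≤ 4 * (C.size * vol n (d - 1)) := by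
  classical
  have hV1 : 1 ≤ vol n (d - 1) := by
    unfold vol
    calc 1 = n.choose 0 := by simp
      _ ≤ _ := Finset.single_le_sum (f := fun i => n.choose i) (fun _ _ => Nat.zero_le _)
        (by simp)
  set V := vol n (d - 1) with hV
  have hVr : (1 : ℝ) ≤ V := by exact_mod_cast hV1
  set q : ℝ := 1 / (2 * V) with hq
  have hq0 : 0 < q := by positivity
  have hqV : q * V = 1 / 2 := by rw [hq]; field_simp
  have hq1 : q ≤ 1 / 2 := by nlinarith
  have hq1' : q ≤ 1 := by linarith
  set P := q * (1 - q) ^ (V - 1) with hP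
  have hP0 : 0 < P := by
    have : 0 < 1 - q := by linarith
    positivity
  have hPq : P ≤ q := by
    rw [hP]
    have : (1 - q) ^ (V - 1) ≤ 1 := pow_le_one₀ (by linarith) (by linarith)
    nlinarith
  have hsize : (thin n d q hq0.le hq1').size = 2 ^ n * P := thin_size n d hd q hq0.le hq1'
  refine ⟨thin n d q hq0.le hq1', thin_minDist n d q hq0.le hq1', ?_, ?_⟩
  · intro w hw
    rw [hsize]
    have e1 : (thin n d q hq0.le hq1').pairs w = ∑ ω : Word n → Bool, wt q ω *
        (((surv d ω ×ˢ surv d ω).filter
          (fun z => z.1 ≠ z.2 ∧ hammingDist z.1 z.2 ≤ w)).card : ℝ) := rfl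
    rw [e1]
    have h2 : ∀ ω : Word n → Bool, wt q ω * (((surv d ω ×ˢ surv d ω).filter
          (fun z => z.1 ≠ z.2 ∧ hammingDist z.1 z.2 ≤ w)).card : ℝ) =
        ∑ z ∈ ((Finset.univ : Finset (Word n)) ×ˢ (Finset.univ : Finset (Word n))).filter
          (fun z => z.1 ≠ z.2 ∧ hammingDist z.1 z.2 ≤ w),
          (if z.1 ∈ surv d ω ∧ z.2 ∈ surv d ω then wt q ω else 0) := by
      intro ω
      rw [← Finset.sum_filter, Finset.sum_const, nsmul_eq_mul, mul_comm]
      congr 3
      ext z
      simp only [Finset.mem_filter, Finset.mem_product, Finset.mem_univ, true_and]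
      tauto
    rw [Finset.sum_congr rfl (fun ω _ => h2 ω), Finset.sum_comm]
    have h3 : ∀ z ∈ ((Finset.univ : Finset (Word n)) ×ˢ (Finset.univ : Finset (Word n))).filter
          (fun z => z.1 ≠ z.2 ∧ hammingDist z.1 z.2 ≤ w),
        ∑ ω : Word n → Bool, (if z.1 ∈ surv d ω ∧ z.2 ∈ surv d ω then wt q ω else 0) ≤
          P ^ 2 * (1 + 2 * q * (nb d z.1 ∩ nb d z.2).card) := by
      intro z hz
      rw [Finset.mem_filter] at hz
      apply two_survive d hd q hq0.le (by linarith) hz.2.1
      have : q * ((V : ℝ) - 1) = q * V - q := by ring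
      rw [this, hqV]
      linarith
    have hcount : ((((Finset.univ : Finset (Word n)) ×ˢ (Finset.univ : Finset (Word n))).filter
          (fun z => z.1 ≠ z.2 ∧ hammingDist z.1 z.2 ≤ w)).card : ℝ) ≤ 2 ^ n * vol n w := by
      have h4 : (((Finset.univ : Finset (Word n)) ×ˢ (Finset.univ : Finset (Word n))).filter
          (fun z => z.1 ≠ z.2 ∧ hammingDist z.1 z.2 ≤ w)).card ≤ 2 ^ n * vol n w := by
        calc _ ≤ (((Finset.univ : Finset (Word n)) ×ˢ (Finset.univ : Finset (Word n))).filter
              (fun z => hammingDist z.1 z.2 ≤ w)).card := by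
              apply Finset.card_le_card
              intro z hz
              rw [Finset.mem_filter] at hz ⊢
              exact ⟨hz.1, hz.2.2⟩
          _ = ∑ x : Word n, ((Finset.univ : Finset (Word n)).filter
              (fun y => hammingDist x y ≤ w)).card := by
              rw [Finset.card_filter, Finset.sum_product]
              apply Finset.sum_congr rfl
              intro x _
              rw [Finset.card_filter]
          _ = _ := by
              rw [Finset.sum_congr rfl (fun x _ => card_ball x w), Finset.sum_const, smul_eq_mul,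
                Finset.card_univ]
              simp
      exact_mod_cast h4
    have hcommon : ∑ z ∈ ((Finset.univ : Finset (Word n)) ×ˢ (Finset.univ : Finset (Word n))).filter
          (fun z => z.1 ≠ z.2 ∧ hammingDist z.1 z.2 ≤ w), ((nb d z.1 ∩ nb d z.2).card : ℝ) ≤
        2 ^ n * (V : ℝ) ^ 2 := by
      calc _ ≤ ∑ z ∈ (Finset.univ : Finset (Word n)) ×ˢ (Finset.univ : Finset (Word n)),
            ((nb d z.1 ∩ nb d z.2).card : ℝ) := by
            apply Finset.sum_le_sum_of_subset_of_nonneg (Finset.filter_subset _ _)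
            intro _ _ _
            positivity
        _ = ∑ x : Word n, ((∑ y : Word n, (nb d x ∩ nb d y).card : ℕ) : ℝ) := by
            rw [Finset.sum_product]
            push_cast
            rfl
        _ = ∑ _x : Word n, (((V - 1) * (V - 1) : ℕ) : ℝ) := by
            apply Finset.sum_congr rfl
            intro x _
            rw [sum_common d hd x]
        _ ≤ ∑ _x : Word n, (V : ℝ) ^ 2 := by
            apply Finset.sum_le_sum
            intro x _
            have : (V - 1) * (V - 1) ≤ V ^ 2 := by
              rw [sq]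
              exact Nat.mul_le_mul (Nat.sub_le _ _) (Nat.sub_le _ _)
            exact_mod_cast this
        _ = _ := by
            rw [Finset.sum_const, nsmul_eq_mul, Finset.card_univ]
            simp
    refine (Finset.sum_le_sum h3).trans ?_
    rw [← Finset.mul_sum, Finset.sum_add_distrib, Finset.sum_const, nsmul_eq_mul, mul_one,
      ← Finset.mul_sum]
    have h2n : (0 : ℝ) < 2 ^ n := by positivity
    calc P ^ 2 * ((_ : ℝ) + 2 * q * _) ≤ P ^ 2 * (2 ^ n * vol n w + 2 * q * (2 ^ n * (V : ℝ) ^ 2)) := by
          gcongr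
      _ = 2 ^ n * P * (2 ^ n * P * vol n w / 2 ^ n + P * (2 * q * (V : ℝ) ^ 2)) := by
          field_simp
      _ ≤ 2 ^ n * P * (2 ^ n * P * vol n w / 2 ^ n + 1 / 2) := by
          gcongr
          calc P * (2 * q * (V : ℝ) ^ 2) ≤ q * (2 * q * (V : ℝ) ^ 2) := by gcongr
            _ = 2 * (q * V) ^ 2 := by ring
            _ = 1 / 2 := by rw [hqV]; norm_num
  · rw [hsize]
    have hbern : 1 / 2 ≤ (1 - q) ^ (V - 1) := by
      have h1 := one_add_mul_le_pow (show (-2 : ℝ) ≤ -q by linarith) (V - 1)
      rw [← sub_eq_add_neg] at h1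
      refine le_trans ?_ h1
      have : (((V - 1 : ℕ) : ℝ)) ≤ V := by exact_mod_cast Nat.sub_le _ _
      nlinarith
    calc (2 : ℝ) ^ n = 4 * (2 ^ n * (q * (1 / 2)) * V) := by
          have : 4 * (2 ^ n * (q * (1 / 2)) * V) = 2 ^ n * (2 * (q * V)) := by ring
          rw [this, hqV]
          ring
      _ ≤ 4 * (2 ^ n * P * V) := by
          rw [hP]
          gcongr

end Pool.Agent.Q197.NC
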