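import Pool.Agent.Q197.NC.Lower
import Pool.Agent.Y570.LS.Ent

/-! The rate of random codes without clustering. -/

set_option autoImplicit false

open Finset Filter Topology

namespace Pool.Agent.Q197.NC

variable {n : ℕ}

lemma vol_pos (n w : ℕ) : 1 ≤ vol n w := by
  unfold vol
  calc 1 = n.choose 0 := by simp
    _ ≤ _ := Finset.single_le_sum (f := fun i => n.choose i) (fun _ _ => Nat.zero_le _)
      (by simp)

lemma size_nonneg (C : RandomCode n) : 0 ≤ C.size :=
  Finset.sum_nonneg fun ω _ => mul_nonneg (C.nonneg ω) (by positivity)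

lemma best_le {d : ℕ} (hd1 : 1 ≤ d) (hdn : d ≤ n) {B : ℝ} (hB : 0 ≤ B) :
    best n d B ≤ d * (Real.exp 1 + B) * 2 ^ n / vol n (d - 1) := by
  have hV : (0 : ℝ) < vol n (d - 1) := by exact_mod_cast vol_pos n (d - 1)
  unfold best
  apply Real.sSup_le
  · rintro M ⟨C, h1, h2, rfl⟩
    rw [le_div_iff₀ hV]
    exact upper hd1 hdn C h1 hB h2
  · positivity

lemma le_best {d : ℕ} (hd1 : 1 ≤ d) (hdn : d ≤ n) {B : ℝ} (hB : 1 / 2 ≤ B) :
    2 ^ n / (4 * vol n (d - 1)) ≤ best n d B := by
  have hV : (0 : ℝ) < vol n (d - 1) := by exact_mod_cast vol_pos n (d - 1)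
  have hB0 : 0 ≤ B := by linarith
  obtain ⟨C, h1, h2, h3⟩ := lower hd1 n
  have h4 : C.Unclustered B := by
    intro w hw
    refine (h2 w hw).trans ?_
    have := size_nonneg C
    gcongr
  have h5 : C.size ≤ best n d B := by
    apply le_csSup
    · refine ⟨d * (Real.exp 1 + B) * 2 ^ n / vol n (d - 1), ?_⟩
      rintro M ⟨C', g1, g2, rfl⟩
      rw [le_div_iff₀ hV]
      exact upper hd1 hdn C' g1 hB0 g2
    · exact ⟨C, h1, h4, rfl⟩
  refine le_trans ?_ h5
  rw [div_le_iff₀ (by positivity)]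
  linarith

/-- the exponential size of the Hamming balls -/
lemma vol_rate {δ : ℝ} (h0 : 0 < δ) (h1 : δ < 1 / 2) :
    Tendsto (fun n : ℕ => Real.log (vol n (⌈δ * n⌉₊ - 1)) / n) atTop (𝓝 (Real.binEntropy δ)) := by
  have hvol : ∀ n d : ℕ, 1 ≤ d → (vol n (d - 1) : ℝ) = Pool.Agent.Y570.LS.vol n d := by
    intro n d hd
    unfold vol Pool.Agent.Y570.LS.vol
    rw [Nat.sub_add_cancel hd]
    push_cast
    rfl
  -- the relative radius
  have hx : Tendsto (fun n : ℕ => ((⌈δ * n⌉₊ - 1 : ℕ) : ℝ) / n) atTop (𝓝 δ) := by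
    have hlow : Tendsto (fun n : ℕ => δ - 1 / (n : ℝ)) atTop (𝓝 (δ - 0)) :=
      tendsto_const_nhds.sub (tendsto_const_nhds.div_atTop tendsto_natCast_atTop_atTop)
    rw [sub_zero] at hlow
    refine tendsto_of_tendsto_of_tendsto_of_le_of_le' hlow tendsto_const_nhds ?_ ?_
    · filter_upwards [eventually_gt_atTop 0] with n hn
      have hn' : (0 : ℝ) < n := by exact_mod_cast hn
      have h2 : δ * n ≤ ⌈δ * n⌉₊ := Nat.le_ceil _
      have h3 : ((⌈δ * n⌉₊ : ℕ) : ℝ) - 1 ≤ ((⌈δ * n⌉₊ - 1 : ℕ) : ℝ) := by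
        have : 1 ≤ ⌈δ * n⌉₊ := Nat.one_le_iff_ne_zero.2 (by
          rw [Ne, Nat.ceil_eq_zero, not_le]; positivity)
        rw [Nat.cast_sub this, Nat.cast_one]
      rw [le_div_iff₀ hn', sub_mul, one_div, inv_mul_cancel₀ hn'.ne']
      linarith
    · filter_upwards [eventually_gt_atTop 0] with n hn
      have hn' : (0 : ℝ) < n := by exact_mod_cast hn
      rw [div_le_iff₀ hn']
      have h2 : (⌈δ * n⌉₊ : ℝ) < δ * n + 1 := Nat.ceil_lt_add_one (by positivity)
      have : 1 ≤ ⌈δ * n⌉₊ := Nat.one_le_iff_ne_zero.2 (by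
          rw [Ne, Nat.ceil_eq_zero, not_le]; positivity)
      rw [Nat.cast_sub this, Nat.cast_one]
      linarith
  have hent : Tendsto (fun n : ℕ => Real.binEntropy (((⌈δ * n⌉₊ - 1 : ℕ) : ℝ) / n)) atTop
      (𝓝 (Real.binEntropy δ)) := (Real.binEntropy_continuous.tendsto δ).comp hx
  have hlog : Tendsto (fun n : ℕ => Real.log ((n : ℝ) + 1) / n) atTop (𝓝 0) := by
    have h1 : Tendsto (fun x : ℝ => Real.log x / x) atTop (𝓝 0) := by
      simpa using Real.tendsto_pow_log_div_mul_add_atTop 1 0 1 one_ne_zero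
    have h2 : Tendsto (fun n : ℕ => (n : ℝ) + 1) atTop atTop :=
      tendsto_atTop_add_const_right _ _ tendsto_natCast_atTop_atTop
    have h3 := (h1.comp h2).const_mul 2
    rw [mul_zero] at h3
    refine squeeze_zero' ?_ ?_ h3
    · filter_upwards [eventually_gt_atTop 0] with n hn
      have hn' : (0 : ℝ) < n := by exact_mod_cast hn
      have : 0 ≤ Real.log ((n : ℝ) + 1) := Real.log_nonneg (by linarith)
      positivity
    · filter_upwards [eventually_gt_atTop 0] with n hn
      have hn' : (1 : ℝ) ≤ n := by exact_mod_cast hn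
      have h4 : 0 ≤ Real.log ((n : ℝ) + 1) := Real.log_nonneg (by linarith)
      simp only [Function.comp]
      rw [div_le_iff₀ (by linarith)]
      have h5 : 2 * (Real.log ((n : ℝ) + 1) / (n + 1)) * n =
          Real.log ((n : ℝ) + 1) * (2 * n / (n + 1)) := by ring
      rw [h5]
      have h6 : 1 ≤ 2 * (n : ℝ) / (n + 1) := by
        rw [le_div_iff₀ (by linarith)]
        linarith
      nlinarith
  have hlow := hent.sub hlog
  rw [sub_zero] at hlow
  refine tendsto_of_tendsto_of_tendsto_of_le_of_le' hlow tendsto_const_nhds ?_ ?_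
  · -- lower bound
    have hlarge : ∀ᶠ n : ℕ in atTop, 2 ≤ ⌈δ * n⌉₊ ∧ ⌈δ * n⌉₊ ≤ n := by
      have h2 : Tendsto (fun n : ℕ => δ * (n : ℝ)) atTop atTop :=
        Tendsto.const_mul_atTop h0 tendsto_natCast_atTop_atTop
      filter_upwards [h2.eventually_ge_atTop 2, eventually_gt_atTop 0] with n hn hn0
      constructor
      · have : (2 : ℝ) ≤ ⌈δ * n⌉₊ := hn.trans (Nat.le_ceil _)
        exact_mod_cast this
      · rw [Nat.ceil_le]
        have hn' : (0 : ℝ) < n := by exact_mod_cast hn0
        nlinarith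
    filter_upwards [hlarge, eventually_gt_atTop 0] with n hn hn0
    have hn' : (0 : ℝ) < n := by exact_mod_cast hn0
    set d := ⌈δ * n⌉₊ with hd
    have h2 := Pool.Agent.Y570.LS.choose_ge (n := n) (j := d - 1) (by omega) (by omega)
    have h3 : (n.choose (d - 1) : ℝ) ≤ vol n (d - 1) := by
      have : n.choose (d - 1) ≤ vol n (d - 1) := by
        unfold vol
        exact Finset.single_le_sum (f := fun i => n.choose i) (fun _ _ => Nat.zero_le _)
          (by simp)
      exact_mod_cast this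
    have h4 : n * Real.binEntropy (((d - 1 : ℕ) : ℝ) / n) ≤
        Real.log ((n : ℝ) + 1) + Real.log (vol n (d - 1)) := by
      have hV : (0 : ℝ) < vol n (d - 1) := by exact_mod_cast vol_pos n (d - 1)
      rw [← Real.log_mul (by positivity) hV.ne', Real.le_log_iff_exp_le (by positivity)]
      refine h2.trans ?_
      gcongr
    rw [le_div_iff₀ hn', sub_mul, div_mul_cancel₀ _ hn'.ne']
    linarith
  · filter_upwards [eventually_gt_atTop 0] with n hn0
    have hn' : (0 : ℝ) < n := by exact_mod_cast hn0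
    set d := ⌈δ * n⌉₊ with hd
    have hd1 : 1 ≤ d := Nat.one_le_iff_ne_zero.2 (by
          rw [hd, Ne, Nat.ceil_eq_zero, not_le]; positivity)
    have hlt : (d : ℝ) < δ * n + 1 := Nat.ceil_lt_add_one (by positivity)
    have h2 := Pool.Agent.Y570.LS.vol_le h0 h1.le n d (by
      have : d ≤ n := by
        rw [hd, Nat.ceil_le]
        nlinarith
      omega) (by
      intro w hw
      have : (w : ℝ) + 1 ≤ d := by exact_mod_cast hw
      nlinarith)
    rw [← hvol n d hd1] at h2
    have hV : (0 : ℝ) < vol n (d - 1) := by exact_mod_cast vol_pos n (d - 1)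
    rw [div_le_iff₀ hn', Real.log_le_iff_le_exp hV, mul_comm]
    exact h2

theorem rate {δ : ℝ} (h0 : 0 < δ) (h1 : δ < 1 / 2) {B : ℕ → ℝ} (hB : ∀ n, 1 / 2 ≤ B n)
    (hB2 : Tendsto (fun n : ℕ => Real.log (B n) / n) atTop (𝓝 0)) :
    Tendsto (fun n : ℕ => Real.logb 2 (best n ⌈δ * n⌉₊ (B n)) / n) atTop
      (𝓝 (1 - (-δ * Real.logb 2 δ - (1 - δ) * Real.logb 2 (1 - δ)))) := by
  have hl2 : 0 < Real.log 2 := Real.log_pos (by norm_num)
  have hH : -δ * Real.logb 2 δ - (1 - δ) * Real.logb 2 (1 - δ) =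
      Real.binEntropy δ / Real.log 2 := by
    rw [Real.binEntropy, Real.log_inv, Real.log_inv, Real.logb, Real.logb]
    ring
  rw [hH]
  have hv := (vol_rate h0 h1).div_const (Real.log 2)
  -- lower bound
  have hlowlim : Tendsto (fun n : ℕ => 1 - 2 / (n : ℝ) -
      Real.log (vol n (⌈δ * n⌉₊ - 1)) / n / Real.log 2) atTop
      (𝓝 (1 - 0 - Real.binEntropy δ / Real.log 2)) :=
    (tendsto_const_nhds.sub (tendsto_const_nhds.div_atTop tendsto_natCast_atTop_atTop)).sub hv
  -- the prefactor
  have hpre : Tendsto (fun n : ℕ => Real.log (n * (4 * (2 * B n + 1))) / n) atTop (𝓝 0) := by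
    have ha : Tendsto (fun n : ℕ => Real.log (n : ℝ) / n) atTop (𝓝 0) := by
      have h1 : Tendsto (fun x : ℝ => Real.log x / x) atTop (𝓝 0) := by
        simpa using Real.tendsto_pow_log_div_mul_add_atTop 1 0 1 one_ne_zero
      exact h1.comp tendsto_natCast_atTop_atTop
    have hb : Tendsto (fun n : ℕ => Real.log 16 / (n : ℝ)) atTop (𝓝 0) :=
      tendsto_const_nhds.div_atTop tendsto_natCast_atTop_atTop
    have hsum := (ha.add hb).add hB2
    simp only [add_zero] at hsum
    refine squeeze_zero' ?_ ?_ hsum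
    · filter_upwards [eventually_gt_atTop 0] with n hn
      have hn' : (1 : ℝ) ≤ n := by exact_mod_cast hn
      have := hB n
      apply div_nonneg _ (by linarith)
      apply Real.log_nonneg
      nlinarith
    · filter_upwards [eventually_gt_atTop 0] with n hn
      have hn' : (1 : ℝ) ≤ n := by exact_mod_cast hn
      have hBn := hB n
      rw [← add_div, ← add_div]
      apply div_le_div_of_nonneg_right _ (by linarith)
      rw [← Real.log_mul (by linarith) (by norm_num), ← Real.log_mul (by positivity) (by linarith)]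
      apply Real.log_le_log (by positivity)
      nlinarith
  have huplim : Tendsto (fun n : ℕ => Real.log (n * (4 * (2 * B n + 1))) / n / Real.log 2 + 1 -
      Real.log (vol n (⌈δ * n⌉₊ - 1)) / n / Real.log 2) atTop
      (𝓝 (0 / Real.log 2 + 1 - Real.binEntropy δ / Real.log 2)) :=
    ((hpre.div_const _).add tendsto_const_nhds).sub hv
  rw [sub_zero] at hlowlim
  rw [zero_div, zero_add] at huplim
  have hdn : ∀ᶠ n : ℕ in atTop, 0 < n ∧ 1 ≤ ⌈δ * n⌉₊ ∧ ⌈δ * n⌉₊ ≤ n := by
    filter_upwards [eventually_gt_atTop 0] with n hn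
    have hn' : (0 : ℝ) < n := by exact_mod_cast hn
    refine ⟨hn, Nat.one_le_iff_ne_zero.2 (by rw [Ne, Nat.ceil_eq_zero, not_le]; positivity), ?_⟩
    rw [Nat.ceil_le]
    nlinarith
  refine tendsto_of_tendsto_of_tendsto_of_le_of_le' hlowlim huplim ?_ ?_
  · filter_upwards [hdn] with n hn
    obtain ⟨hn0, hd1, hd2⟩ := hn
    have hn' : (0 : ℝ) < n := by exact_mod_cast hn0
    set d := ⌈δ * n⌉₊ with hd
    have hV : (0 : ℝ) < vol n (d - 1) := by exact_mod_cast vol_pos n (d - 1)
    have h2 := le_best hd1 hd2 (hB n)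
    have h3 := Real.logb_le_logb_of_le (b := 2) (by norm_num) (by positivity) h2
    have h4 : Real.logb 2 (2 ^ n / (4 * (vol n (d - 1) : ℝ))) =
        n - 2 - Real.log (vol n (d - 1)) / Real.log 2 := by
      rw [Real.logb_div (by positivity) (by positivity), Real.logb_pow, Real.logb_self_eq_one
        (by norm_num), Real.logb_mul (by norm_num) hV.ne', mul_one]
      have : Real.logb 2 4 = 2 := by
        rw [show (4 : ℝ) = 2 ^ 2 by norm_num, Real.logb_pow, Real.logb_self_eq_one (by norm_num)]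
        norm_num
      rw [this]
      rw [Real.logb]
      ring
    rw [h4] at h3
    rw [le_div_iff₀ hn']
    refine le_trans (le_of_eq ?_) h3
    field_simp
  · filter_upwards [hdn] with n hn
    obtain ⟨hn0, hd1, hd2⟩ := hn
    have hn' : (0 : ℝ) < n := by exact_mod_cast hn0
    set d := ⌈δ * n⌉₊ with hd
    have hV : (0 : ℝ) < vol n (d - 1) := by exact_mod_cast vol_pos n (d - 1)
    have hBn := hB n
    have h2 := best_le (n := n) hd1 hd2 (show 0 ≤ B n by linarith)
    have hpos : 0 < best n d (B n) := lt_of_lt_of_le (by positivity) (le_best hd1 hd2 (hB n))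
    have hd' : (d : ℝ) ≤ n := by exact_mod_cast hd2
    have h2' : best n d (B n) ≤ n * (4 * (2 * B n + 1)) * 2 ^ n / vol n (d - 1) := by
      refine h2.trans ?_
      have he : Real.exp 1 < 3 := by
        have := Real.exp_one_lt_three
        linarith
      gcongr
      linarith
    have h3 := Real.logb_le_logb_of_le (b := 2) (by norm_num) hpos h2'
    have h4 : Real.logb 2 (n * (4 * (2 * B n + 1)) * 2 ^ n / (vol n (d - 1) : ℝ)) =
        Real.log (n * (4 * (2 * B n + 1))) / Real.log 2 + n -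
          Real.log (vol n (d - 1)) / Real.log 2 := by
      rw [Real.logb_div (by positivity) (by positivity), Real.logb_mul (by positivity)
        (by positivity), Real.logb_pow, Real.logb_self_eq_one (by norm_num), mul_one]
      rfl
    rw [h4] at h3
    rw [div_le_iff₀ hn']
    refine h3.trans (le_of_eq ?_)
    field_simp

end Pool.Agent.Q197.NC
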