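import Pool.Agent.Q197.NC.Defs

/-! Random binary codes without clustering: the upper bound. -/

set_option autoImplicit false

open Finset

namespace Pool.Agent.Q197.NC

variable {n : ℕ}

/-- the product kernel -/
noncomputable def ker (a b : ℝ) (x z : Word n) : ℝ := ∏ i, if x i = z i then a else b

lemma sum_ker (a b : ℝ) (x : Word n) : ∑ z, ker a b x z = (a + b) ^ n := by
  unfold ker
  have h := Finset.prod_univ_sum (fun _ : Fin n => (Finset.univ : Finset Bool))
    (fun i (c : Bool) => if x i = c then a else b)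
  rw [Fintype.piFinset_univ] at h
  rw [← h]
  have h2 : ∀ i : Fin n, ∑ c : Bool, (if x i = c then a else b) = a + b := by
    intro i
    cases hx : x i <;> simp [add_comm]
  rw [Finset.prod_congr rfl (fun i _ => h2 i), Finset.prod_const, Finset.card_univ,
    Fintype.card_fin]

lemma sum_ker_mul {a b : ℝ} (hab : a ^ 2 + b ^ 2 = 1) (x y : Word n) :
    ∑ z, ker a b x z * ker a b y z = (2 * a * b) ^ hammingDist x y := by
  unfold ker
  simp_rw [← Finset.prod_mul_distrib]
  have h := Finset.prod_univ_sum (fun _ : Fin n => (Finset.univ : Finset Bool))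
    (fun i (c : Bool) => (if x i = c then a else b) * (if y i = c then a else b))
  rw [Fintype.piFinset_univ] at h
  rw [← h]
  have h2 : ∀ i : Fin n, ∑ c : Bool, (if x i = c then a else b) * (if y i = c then a else b) =
      if x i ≠ y i then 2 * a * b else 1 := by
    intro i
    cases hx : x i <;> cases hy : y i <;> simp <;> linarith
  rw [Finset.prod_congr rfl (fun i _ => h2 i), Finset.prod_ite, Finset.prod_const,
    Finset.prod_const_one, mul_one]
  rfl

/-- positivity -/
lemma positive (C : RandomCode n) {ε : ℝ} (h0 : 0 ≤ ε) (h1 : ε ≤ 1) :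
    C.size ^ 2 * ((1 + ε) / 2) ^ n ≤
      ∑ ω, C.p ω * ∑ x ∈ C.code ω, ∑ y ∈ C.code ω, ε ^ hammingDist x y := by
  set a := (√(1 + ε) + √(1 - ε)) / 2 with ha
  set b := (√(1 + ε) - √(1 - ε)) / 2 with hb
  have s1 : √(1 + ε) ^ 2 = 1 + ε := Real.sq_sqrt (by linarith)
  have s2 : √(1 - ε) ^ 2 = 1 - ε := Real.sq_sqrt (by linarith)
  have hab : a ^ 2 + b ^ 2 = 1 := by rw [ha, hb]; nlinarith
  have hab2 : 2 * a * b = ε := by rw [ha, hb]; nlinarith
  have hsum : (a + b) ^ 2 = 1 + ε := by rw [ha, hb]; ring_nf; rw [s1]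
  -- for each code
  have key : ∀ ω, ((C.code ω).card : ℝ) ^ 2 * ((1 + ε) / 2) ^ n ≤
      ∑ x ∈ C.code ω, ∑ y ∈ C.code ω, ε ^ hammingDist x y := by
    intro ω
    set S := C.code ω with hS
    have e1 : ∑ x ∈ S, ∑ y ∈ S, ε ^ hammingDist x y = ∑ z : Word n, (∑ x ∈ S, ker a b x z) ^ 2 := by
      calc ∑ x ∈ S, ∑ y ∈ S, ε ^ hammingDist x y
          = ∑ x ∈ S, ∑ y ∈ S, ∑ z, ker a b x z * ker a b y z := by
            apply Finset.sum_congr rfl; intro x _
            apply Finset.sum_congr rfl; intro y _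
            rw [sum_ker_mul hab, hab2]
        _ = ∑ z, ∑ x ∈ S, ∑ y ∈ S, ker a b x z * ker a b y z := by
            rw [Finset.sum_comm (s := (Finset.univ : Finset (Word n)))]
            apply Finset.sum_congr rfl
            intro x _
            rw [Finset.sum_comm]
        _ = _ := by
            apply Finset.sum_congr rfl; intro z _
            rw [sq, Finset.sum_mul_sum]
    have e2 : ∑ z : Word n, ∑ x ∈ S, ker a b x z = S.card * (a + b) ^ n := by
      rw [Finset.sum_comm]
      simp_rw [sum_ker]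
      rw [Finset.sum_const, nsmul_eq_mul]
    have e3 := sq_sum_le_card_mul_sum_sq (s := (Finset.univ : Finset (Word n)))
      (f := fun z => ∑ x ∈ S, ker a b x z)
    rw [e2, ← e1] at e3
    have e4 : ((Finset.univ : Finset (Word n)).card : ℝ) = 2 ^ n := by
      rw [Finset.card_univ]
      simp
    rw [e4] at e3
    rw [div_pow]
    have h2n : (0 : ℝ) < 2 ^ n := by positivity
    rw [mul_div_assoc', div_le_iff₀ h2n]
    calc (S.card : ℝ) ^ 2 * (1 + ε) ^ n = ((S.card : ℝ) * (a + b) ^ n) ^ 2 := by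
          rw [mul_pow, ← pow_mul, mul_comm n 2, pow_mul, hsum]
      _ ≤ _ := by rw [mul_comm _ ((2 : ℝ) ^ n)]; exact e3
  -- Jensen
  have hJ : C.size ^ 2 ≤ ∑ ω, C.p ω * ((C.code ω).card : ℝ) ^ 2 := by
    have h3 := Finset.sum_mul_sq_le_sq_mul_sq (Finset.univ : Finset C.Ω)
      (fun ω => √(C.p ω)) (fun ω => √(C.p ω) * (C.code ω).card)
    have e5 : ∀ ω, √(C.p ω) * (√(C.p ω) * ((C.code ω).card : ℝ)) = C.p ω * (C.code ω).card := by
      intro ω
      rw [← mul_assoc, Real.mul_self_sqrt (C.nonneg ω)]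
    have e6 : ∀ ω, (√(C.p ω) * ((C.code ω).card : ℝ)) ^ 2 = C.p ω * ((C.code ω).card : ℝ) ^ 2 := by
      intro ω
      rw [mul_pow, Real.sq_sqrt (C.nonneg ω)]
    have e7 : ∀ ω, √(C.p ω) ^ 2 = C.p ω := fun ω => Real.sq_sqrt (C.nonneg ω)
    simp only [e5, e6, e7, C.sum_one, one_mul] at h3
    exact h3
  calc C.size ^ 2 * ((1 + ε) / 2) ^ n
      ≤ (∑ ω, C.p ω * ((C.code ω).card : ℝ) ^ 2) * ((1 + ε) / 2) ^ n := by
        gcongr
    _ = ∑ ω, C.p ω * (((C.code ω).card : ℝ) ^ 2 * ((1 + ε) / 2) ^ n) := by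
        rw [Finset.sum_mul]
        apply Finset.sum_congr rfl; intro ω _
        ring
    _ ≤ _ := by
        apply Finset.sum_le_sum; intro ω _
        exact mul_le_mul_of_nonneg_left (key ω) (C.nonneg ω)

/-- summation by parts for a single power -/
lemma pow_eq_sum (ε : ℝ) {t n : ℕ} (ht : t ≤ n) :
    ε ^ t = ε ^ n + ∑ w ∈ Finset.range n, if t ≤ w then ε ^ w - ε ^ (w + 1) else 0 := by
  induction n, ht using Nat.le_induction with
  | base =>
    have : ∑ w ∈ Finset.range t, (if t ≤ w then ε ^ w - ε ^ (w + 1) else 0) = 0 := by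
      apply Finset.sum_eq_zero
      intro w hw
      rw [if_neg (by rw [Finset.mem_range] at hw; omega)]
    rw [this, add_zero]
  | succ m hm ih =>
    rw [Finset.sum_range_succ, if_pos hm]
    rw [ih]
    ring

lemma hammingDist_le (x y : Word n) : hammingDist x y ≤ n := by
  have := hammingDist_le_card_fintype (x := x) (y := y)
  simpa using this

/-- the sum over the pairs of distinct words, by the cumulative counts -/
lemma offdiag (C : RandomCode n) (ε : ℝ) :
    ∑ ω, C.p ω * ∑ x ∈ C.code ω, ∑ y ∈ C.code ω, ε ^ hammingDist x y =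
      C.size + (ε ^ n * C.pairs n +
        ∑ w ∈ Finset.range n, (ε ^ w - ε ^ (w + 1)) * C.pairs w) := by
  classical
  have h1 : ∀ ω, ∑ x ∈ C.code ω, ∑ y ∈ C.code ω, ε ^ hammingDist x y =
      ((C.code ω).card : ℝ) +
        ∑ z ∈ (C.code ω ×ˢ C.code ω).filter (fun z => z.1 ≠ z.2), ε ^ hammingDist z.1 z.2 := by
    intro ω
    rw [← Finset.sum_product',
      ← Finset.sum_filter_add_sum_filter_not (C.code ω ×ˢ C.code ω) (fun z => z.1 ≠ z.2), add_comm]
    congr 1
    have h2 : (C.code ω ×ˢ C.code ω).filter (fun z => ¬ (z.1 ≠ z.2)) =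
        (C.code ω).image (fun x => (x, x)) := by
      ext ⟨x, y⟩
      simp only [Finset.mem_filter, Finset.mem_product, ne_eq, not_not, Finset.mem_image,
        Prod.mk.injEq]
      constructor
      · rintro ⟨⟨hx, hy⟩, rfl⟩
        exact ⟨x, hx, rfl, rfl⟩
      · rintro ⟨a, ha, rfl, rfl⟩
        exact ⟨⟨ha, ha⟩, rfl⟩
    rw [h2, Finset.sum_image (by intro x _ y _ h; exact (Prod.mk.inj h).1)]
    simp
  have h3 : ∀ ω, ∑ z ∈ (C.code ω ×ˢ C.code ω).filter (fun z => z.1 ≠ z.2),
      ε ^ hammingDist z.1 z.2 =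
      ε ^ n * (((C.code ω ×ˢ C.code ω).filter
        (fun z => z.1 ≠ z.2 ∧ hammingDist z.1 z.2 ≤ n)).card : ℝ) +
      ∑ w ∈ Finset.range n, (ε ^ w - ε ^ (w + 1)) * (((C.code ω ×ˢ C.code ω).filter
        (fun z => z.1 ≠ z.2 ∧ hammingDist z.1 z.2 ≤ w)).card : ℝ) := by
    intro ω
    have h4 : (C.code ω ×ˢ C.code ω).filter (fun z => z.1 ≠ z.2 ∧ hammingDist z.1 z.2 ≤ n) =
        (C.code ω ×ˢ C.code ω).filter (fun z => z.1 ≠ z.2) := by
      apply Finset.filter_congr
      intro z _
      simp [hammingDist_le]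
    rw [h4]
    rw [Finset.sum_congr rfl (fun z _ => pow_eq_sum ε (hammingDist_le z.1 z.2))]
    rw [Finset.sum_add_distrib, Finset.sum_const, nsmul_eq_mul, mul_comm (ε ^ n)]
    congr 1
    rw [Finset.sum_comm]
    apply Finset.sum_congr rfl
    intro w _
    rw [← Finset.filter_filter, Finset.card_filter]
    push_cast
    rw [Finset.mul_sum]
    apply Finset.sum_congr rfl
    intro z _
    split_ifs <;> simp
  simp_rw [h1, h3]
  unfold RandomCode.size RandomCode.pairs
  simp_rw [mul_add, Finset.sum_add_distrib, Finset.mul_sum]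
  congr 1
  congr 1
  · apply Finset.sum_congr rfl
    intro ω _
    ring
  · rw [Finset.sum_comm]
    apply Finset.sum_congr rfl
    intro w _
    apply Finset.sum_congr rfl
    intro ω _
    ring

lemma pairs_eq_zero (C : RandomCode n) {d w : ℕ} (hd : C.MinDist d) (hw : w < d) :
    C.pairs w = 0 := by
  unfold RandomCode.pairs
  apply Finset.sum_eq_zero
  intro ω _
  have : (C.code ω ×ˢ C.code ω).filter (fun z => z.1 ≠ z.2 ∧ hammingDist z.1 z.2 ≤ w) = ∅ := by
    apply Finset.filter_eq_empty_iff.2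
    rintro ⟨x, y⟩ hz ⟨h1, h2⟩
    rw [Finset.mem_product] at hz
    have := hd ω x hz.1 y hz.2 h1
    simp only at h2
    omega
  rw [this]
  simp

/-- the corresponding identity for the binomial distribution -/
lemma binom_id (ε : ℝ) {d n : ℕ} (hd : d ≤ n) :
    ε ^ n * vol n n + ∑ w ∈ Finset.range n, (if d ≤ w then (ε ^ w - ε ^ (w + 1)) * vol n w else 0) =
      ∑ i ∈ Finset.range (n + 1), n.choose i * ε ^ max i d := by
  have h1 : ∀ i ∈ Finset.range (n + 1), (n.choose i : ℝ) * ε ^ max i d =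
      n.choose i * ε ^ n + ∑ w ∈ Finset.range n,
        (if max i d ≤ w then (ε ^ w - ε ^ (w + 1)) * n.choose i else 0) := by
    intro i hi
    rw [Finset.mem_range] at hi
    have h2 := pow_eq_sum ε (show max i d ≤ n by omega)
    rw [h2, mul_add, Finset.mul_sum]
    congr 1
    apply Finset.sum_congr rfl
    intro w _
    split_ifs <;> ring
  rw [Finset.sum_congr rfl h1, Finset.sum_add_distrib, ← Finset.sum_mul, mul_comm (ε ^ n)]
  congr 1
  · unfold vol
    push_cast
    rfl
  · rw [Finset.sum_comm]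
    apply Finset.sum_congr rfl
    intro w hw
    rw [Finset.mem_range] at hw
    split_ifs with h
    · unfold vol
      push_cast
      rw [Finset.mul_sum]
      rw [← Finset.sum_filter]
      apply Finset.sum_congr
      · ext i
        simp only [Finset.mem_filter, Finset.mem_range]
        omega
      · intro i _
        rfl
    · symm
      apply Finset.sum_eq_zero
      intro i _
      rw [if_neg (by omega)]

theorem upper {d : ℕ} (hd1 : 1 ≤ d) (hdn : d ≤ n) (C : RandomCode n) (hC : C.MinDist d) {B : ℝ}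
    (hB : 0 ≤ B) (hU : C.Unclustered B) :
    C.size * vol n (d - 1) ≤ d * (Real.exp 1 + B) * 2 ^ n := by
  have hd0 : (0 : ℝ) < d := by exact_mod_cast hd1
  have hM0 : 0 ≤ C.size := Finset.sum_nonneg fun ω _ => mul_nonneg (C.nonneg ω) (by positivity)
  have h2n : (0 : ℝ) < 2 ^ n := by positivity
  rcases eq_or_lt_of_le hM0 with h0 | hM
  · rw [← h0, zero_mul]
    positivity
  set M := C.size with hMdef
  set ε : ℝ := 1 - 1 / d with hε
  have hε0 : 0 ≤ ε := by
    rw [hε, sub_nonneg, div_le_one hd0]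
    exact_mod_cast hd1
  have hε1 : ε < 1 := by
    rw [hε]
    have : 0 < 1 / (d : ℝ) := by positivity
    linarith
  have hpos := positive C hε0 hε1.le
  rw [offdiag] at hpos
  -- bound for the off-diagonal part
  have hterm : ∀ w ∈ Finset.range n, (ε ^ w - ε ^ (w + 1)) * C.pairs w ≤
      M * (M / 2 ^ n * (if d ≤ w then (ε ^ w - ε ^ (w + 1)) * vol n w else 0) +
        B * (if d ≤ w then (ε ^ w - ε ^ (w + 1)) else 0)) := by
    intro w hw
    rw [Finset.mem_range] at hw
    have hdiff : 0 ≤ ε ^ w - ε ^ (w + 1) := by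
      rw [pow_succ, ← mul_one_sub]
      have : 0 ≤ 1 - ε := by linarith
      positivity
    split_ifs with h
    · have h1 := hU w hw.le
      calc (ε ^ w - ε ^ (w + 1)) * C.pairs w ≤ (ε ^ w - ε ^ (w + 1)) *
            (M * (M * vol n w / 2 ^ n + B)) := by gcongr
        _ = _ := by ring
    · rw [pairs_eq_zero C hC (not_le.1 h)]
      simp
  have hfirst : ε ^ n * C.pairs n ≤ M * (M / 2 ^ n * (ε ^ n * vol n n) + B * ε ^ n) := by
    have h1 := hU n le_rfl
    calc ε ^ n * C.pairs n ≤ ε ^ n * (M * (M * vol n n / 2 ^ n + B)) := by gcongr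
      _ = _ := by ring
  have hsumB : ε ^ n + ∑ w ∈ Finset.range n, (if d ≤ w then (ε ^ w - ε ^ (w + 1)) else 0) = ε ^ d :=
    (pow_eq_sum ε hdn).symm
  have htotal : ε ^ n * C.pairs n + ∑ w ∈ Finset.range n, (ε ^ w - ε ^ (w + 1)) * C.pairs w ≤
      M * (M / 2 ^ n * ∑ i ∈ Finset.range (n + 1), n.choose i * ε ^ max i d + B * ε ^ d) := by
    calc _ ≤ M * (M / 2 ^ n * (ε ^ n * vol n n) + B * ε ^ n) + ∑ w ∈ Finset.range n,
          M * (M / 2 ^ n * (if d ≤ w then (ε ^ w - ε ^ (w + 1)) * vol n w else 0) +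
        B * (if d ≤ w then (ε ^ w - ε ^ (w + 1)) else 0)) :=
          add_le_add hfirst (Finset.sum_le_sum hterm)
      _ = M * (M / 2 ^ n * (ε ^ n * vol n n + ∑ w ∈ Finset.range n,
            (if d ≤ w then (ε ^ w - ε ^ (w + 1)) * vol n w else 0)) +
            B * (ε ^ n + ∑ w ∈ Finset.range n,
              (if d ≤ w then (ε ^ w - ε ^ (w + 1)) else 0))) := by
          rw [← Finset.mul_sum, Finset.sum_add_distrib, ← Finset.mul_sum, ← Finset.mul_sum]
          ring
      _ = _ := by rw [binom_id ε hdn, hsumB]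
  have hbin : (1 + ε) ^ n = ∑ i ∈ Finset.range (n + 1), (n.choose i : ℝ) * ε ^ i := by
    rw [add_comm, add_pow]
    apply Finset.sum_congr rfl
    intro i _
    rw [one_pow, mul_one, mul_comm]
  have hgain : (vol n (d - 1) : ℝ) * (ε ^ (d - 1) * (1 - ε)) ≤
      (1 + ε) ^ n - ∑ i ∈ Finset.range (n + 1), (n.choose i : ℝ) * ε ^ max i d := by
    rw [hbin, ← Finset.sum_sub_distrib]
    unfold vol
    rw [Nat.sub_add_cancel hd1]
    push_cast
    rw [Finset.sum_mul]
    calc ∑ i ∈ Finset.range d, (n.choose i : ℝ) * (ε ^ (d - 1) * (1 - ε))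
        ≤ ∑ i ∈ Finset.range d, ((n.choose i : ℝ) * ε ^ i - n.choose i * ε ^ max i d) := by
          apply Finset.sum_le_sum
          intro i hi
          rw [Finset.mem_range] at hi
          rw [max_eq_right hi.le, ← mul_sub]
          have h1 : ε ^ (d - 1) ≤ ε ^ i := pow_le_pow_of_le_one hε0 hε1.le (by omega)
          have h2 : ε ^ d = ε ^ (d - 1) * ε := by
            rw [← pow_succ, Nat.sub_add_cancel hd1]
          have h3 : ε ^ (d - 1) * (1 - ε) ≤ ε ^ i - ε ^ d := by
            rw [h2]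
            linarith
          gcongr
      _ ≤ _ := by
          apply Finset.sum_le_sum_of_subset_of_nonneg
          · intro i hi
            rw [Finset.mem_range] at hi ⊢
            omega
          · intro i _ hi
            rw [Finset.mem_range, not_lt] at hi
            rw [max_eq_left hi, sub_self]
  -- combine
  have hcomb : M * vol n (d - 1) * (ε ^ (d - 1) * (1 - ε)) ≤ (1 + B * ε ^ d) * 2 ^ n := by
    have h1 : M ^ 2 * ((1 + ε) / 2) ^ n ≤ M + M * (M / 2 ^ n *
        ∑ i ∈ Finset.range (n + 1), n.choose i * ε ^ max i d + B * ε ^ d) :=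
      hpos.trans (by linarith)
    rw [div_pow] at h1
    set Z := ∑ i ∈ Finset.range (n + 1), (n.choose i : ℝ) * ε ^ max i d with hZ
    have h2 : M * (M * ((1 + ε) ^ n / 2 ^ n)) ≤ M * (1 + (M / 2 ^ n * Z + B * ε ^ d)) := by
      calc _ = M ^ 2 * ((1 + ε) ^ n / 2 ^ n) := by ring
        _ ≤ _ := h1
        _ = _ := by ring
    have h3 := le_of_mul_le_mul_left h2 hM
    have h4 : M * ((1 + ε) ^ n - Z) ≤ (1 + B * ε ^ d) * 2 ^ n := by
      have h5 : M * ((1 + ε) ^ n / 2 ^ n) * 2 ^ n = M * (1 + ε) ^ n := by field_simp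
      have h6 : (1 + (M / 2 ^ n * Z + B * ε ^ d)) * 2 ^ n = (1 + B * ε ^ d) * 2 ^ n + M * Z := by
        field_simp
        ring
      have h7 := mul_le_mul_of_nonneg_right h3 h2n.le
      rw [h5, h6] at h7
      linarith
    calc M * vol n (d - 1) * (ε ^ (d - 1) * (1 - ε))
        = M * ((vol n (d - 1) : ℝ) * (ε ^ (d - 1) * (1 - ε))) := by ring
      _ ≤ M * ((1 + ε) ^ n - Z) := by gcongr
      _ ≤ _ := h4
  -- the power
  have hexp : 1 ≤ Real.exp 1 * ε ^ (d - 1) := by
    rcases Nat.lt_or_ge 1 d with h | h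
    · have hd2 : (2 : ℝ) ≤ d := by exact_mod_cast h
      have hεpos : 0 < ε := by
        rw [hε, sub_pos, div_lt_one hd0]
        linarith
      have h1 : Real.log ε ≥ 1 - ε⁻¹ := Real.one_sub_inv_le_log_of_pos hεpos
      have h2 : (d - 1 : ℝ) * (1 - ε⁻¹) = -1 := by
        rw [hε]
        have : (d : ℝ) - 1 ≠ 0 := by linarith
        have e : (1 - 1 / (d : ℝ)) = (d - 1) / d := by field_simp
        rw [e]
        field_simp
        ring
      have h3 : -1 ≤ ((d - 1 : ℕ) : ℝ) * Real.log ε := by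
        rw [Nat.cast_sub hd1, Nat.cast_one, ← h2]
        apply mul_le_mul_of_nonneg_left h1
        linarith
      have h4 : Real.exp (-1) ≤ ε ^ (d - 1) := by
        rw [← Real.exp_log (pow_pos hεpos _), Real.log_pow]
        exact Real.exp_le_exp.2 h3
      calc (1 : ℝ) = Real.exp 1 * Real.exp (-1) := by rw [← Real.exp_add]; simp
        _ ≤ _ := by gcongr
    · have : d = 1 := by omega
      subst this
      simp
  have h1ε : 1 - ε = 1 / d := by rw [hε]; ring
  rw [h1ε] at hcomb
  have hεd : ε ^ d ≤ ε ^ (d - 1) := pow_le_pow_of_le_one hε0 hε1.le (by omega)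
  have hεd1 : ε ^ (d - 1) ≤ 1 := pow_le_one₀ hε0 hε1.le
  have hpw : 0 < ε ^ (d - 1) := by
    by_contra hcon
    have : ε ^ (d - 1) ≤ 0 := not_lt.1 hcon
    nlinarith [Real.exp_pos 1]
  -- divide
  have hfin : M * vol n (d - 1) * ε ^ (d - 1) ≤ d * ((Real.exp 1 + B) * ε ^ (d - 1)) * 2 ^ n := by
    have h1 : M * vol n (d - 1) * ε ^ (d - 1) = d * (M * vol n (d - 1) * (ε ^ (d - 1) * (1 / d))) := by
      field_simp
    rw [h1]
    calc d * (M * vol n (d - 1) * (ε ^ (d - 1) * (1 / d))) ≤ d * ((1 + B * ε ^ d) * 2 ^ n) := by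
          gcongr
      _ ≤ d * ((Real.exp 1 * ε ^ (d - 1) + B * ε ^ (d - 1)) * 2 ^ n) := by gcongr
      _ = _ := by ring
  have h5 : ε ^ (d - 1) * (M * vol n (d - 1)) ≤ ε ^ (d - 1) * (d * (Real.exp 1 + B) * 2 ^ n) := by
    calc _ = M * vol n (d - 1) * ε ^ (d - 1) := by ring
      _ ≤ _ := hfin
      _ = _ := by ring
  exact le_of_mul_le_mul_left h5 hpw

end Pool.Agent.Q197.NC
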